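import Pool.Agent.W661.RC.Stm3
import Pool.Agent.W683.RC.Bas

/-!
# Project RC: basic facts on the matrix ultraproduct (helper138)
-/

set_option autoImplicit false

namespace Pool.Agent.W138.RC

open Matrix Filter Topology
open scoped ComplexOrder
open scoped Matrix.Norms.L2Operator
open Pool.Agent.W661.RC Pool.Agent.W683.RC

section norm

open scoped MatrixOrder

lemma norm_le_one_iff {d : ℕ} (x : Mt d) : ‖x‖ ≤ 1 ↔ Le (xᴴ * x) 1 := by
  have h0 : (0 : Mt d) ≤ xᴴ * x := by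
    rw [Matrix.le_iff, sub_zero]
    exact Matrix.posSemidef_conjTranspose_mul_self x
  have h1 := CStarAlgebra.norm_le_one_iff_of_nonneg (xᴴ * x) h0
  rw [Matrix.l2_opNorm_conjTranspose_mul_self] at h1
  have h2 : Le (xᴴ * x) 1 ↔ xᴴ * x ≤ 1 := Matrix.le_iff.symm
  rw [h2, ← h1]
  constructor
  · intro h
    nlinarith [norm_nonneg x]
  · intro h
    nlinarith [norm_nonneg x]

end norm

variable {𝒰 : Ultrafilter ℕ} {d : ℕ → ℕ}

lemma mkU_surj : Function.Surjective (mkU 𝒰 d) := RingCon.mk'_surjective _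

lemma mkU_eq_iff (x y : BSeq d) : mkU 𝒰 d x = mkU 𝒰 d y ↔
    Tendsto (fun n => hs ((x : ∀ n, Mt (d n)) n - (y : ∀ n, Mt (d n)) n) / d n) 𝒰 (𝓝 0) := by
  have h1 : mkU 𝒰 d x = mkU 𝒰 d y ↔ (NullI 𝒰 d).ringCon x y := RingCon.eq _
  rw [h1, TwoSidedIdeal.rel_iff]
  exact TwoSidedIdeal.mem_mk' _ _ _ _ _ _ _

lemma tend_of_le {f g : ℕ → ℝ} {c : ℝ} (hf : ∀ n, 0 ≤ f n) (hg : Tendsto g 𝒰 (𝓝 0))
    (h : ∀ n, f n ≤ c * g n) : Tendsto f 𝒰 (𝓝 0) := by
  have h2 : Tendsto (fun n => c * g n) 𝒰 (𝓝 0) := by simpa using hg.const_mul c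
  exact squeeze_zero hf h h2

/-- if `a n` commutes with `g n` then the classes commute -/
lemma comm_mk {a b : BSeq d} (h : ∀ n, (a : ∀ n, Mt (d n)) n * (b : ∀ n, Mt (d n)) n =
    (b : ∀ n, Mt (d n)) n * (a : ∀ n, Mt (d n)) n) :
    mkU 𝒰 d a * mkU 𝒰 d b = mkU 𝒰 d b * mkU 𝒰 d a := by
  rw [← map_mul, ← map_mul]
  congr 1
  apply Subtype.ext
  funext n
  exact h n

/-- commuting with the generators implies commuting with everything -/
lemma comm_all {G : Type} [Group G] {S : Set G} (hS : Subgroup.closure S = ⊤) (π : G →* MU 𝒰 d)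
    (y : MU 𝒰 d) (h : ∀ s ∈ S, y * π s = π s * y) (g : G) : y * π g = π g * y := by
  have hg : g ∈ Subgroup.closure S := by rw [hS]; exact Subgroup.mem_top _
  induction hg using Subgroup.closure_induction with
  | mem s hs => exact h s hs
  | one => rw [map_one, mul_one, one_mul]
  | mul a b _ _ ha hb =>
    rw [map_mul, ← mul_assoc, ha, mul_assoc, hb, mul_assoc]
  | inv a _ ha =>
    have e1 : π a⁻¹ * π a = 1 := by rw [← map_mul, inv_mul_cancel, map_one]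
    have e2 : π a * π a⁻¹ = 1 := by rw [← map_mul, mul_inv_cancel, map_one]
    calc y * π a⁻¹ = (π a⁻¹ * π a) * (y * π a⁻¹) := by rw [e1, one_mul]
      _ = π a⁻¹ * (π a * y) * π a⁻¹ := by simp only [mul_assoc]
      _ = π a⁻¹ * (y * π a) * π a⁻¹ := by rw [ha]
      _ = π a⁻¹ * y * (π a * π a⁻¹) := by simp only [mul_assoc]
      _ = π a⁻¹ * y := by rw [e2, mul_one]

/-- the commutator of two sequences whose classes commute is null -/
lemma null_comm {a b : BSeq d} (h : mkU 𝒰 d a * mkU 𝒰 d b = mkU 𝒰 d b * mkU 𝒰 d a) :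
    Tendsto (fun n => hs ((a : ∀ n, Mt (d n)) n * (b : ∀ n, Mt (d n)) n -
      (b : ∀ n, Mt (d n)) n * (a : ∀ n, Mt (d n)) n) / d n) 𝒰 (𝓝 0) := by
  rw [← map_mul, ← map_mul, mkU_eq_iff] at h
  exact h

end Pool.Agent.W138.RC
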