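import Pool.Agent.W138.RC.Sgn

/-!
# Project RC, part RE2: the relative commutant is the ultraproduct of the centralizers of suitable
unitary lifts of the generators (helper138)
-/

set_option autoImplicit false

namespace Pool.Agent.W138.RC

open Matrix Filter Topology
open scoped ComplexOrder
open scoped Matrix.Norms.L2Operator
open Pool.Agent.W661.RC Pool.Agent.W683.RC

variable {𝒰 : Ultrafilter ℕ} {d : ℕ → ℕ}

lemma incl {G : Type} [Group G] {S : Finset G} (hS : Subgroup.closure (S : Set G) = ⊤)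
    (π : G →* MU 𝒰 d) (g : G → ∀ n, Matrix.unitaryGroup (Fin (d n)) ℂ)
    (hg : ∀ s ∈ S, mkU 𝒰 d (unB (g s)) = π s) (a : BSeq d)
    (ha : ∀ n, ∀ s ∈ S, (a : ∀ n, Mt (d n)) n * (g s n : Mt (d n)) =
      (g s n : Mt (d n)) * (a : ∀ n, Mt (d n)) n) (h : G) :
    mkU 𝒰 d a * π h = π h * mkU 𝒰 d a := by
  refine comm_all hS π _ (fun s hs => ?_) h
  have hs' : s ∈ S := hs
  rw [← hg s hs']
  exact comm_mk (fun n => ha n s hs')

lemma null_mul {a b c : BSeq d} (h : mkU 𝒰 d a * mkU 𝒰 d b = mkU 𝒰 d c) :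
    Tendsto (fun n => hs ((a : ∀ n, Mt (d n)) n * (b : ∀ n, Mt (d n)) n -
      (c : ∀ n, Mt (d n)) n) / d n) 𝒰 (𝓝 0) := by
  rw [← map_mul, mkU_eq_iff] at h
  exact h

lemma exists_seq (f : ∀ n, Mt (d n)) (B : ℝ) (h : ∀ n, ‖f n‖ ≤ B) :
    ∃ a : BSeq d, ∀ n, (a : ∀ n, Mt (d n)) n = f n := ⟨⟨f, B, h⟩, fun _ => rfl⟩

lemma norm_un {m : ℕ} {g : Mt m} (hg : gᴴ * g = 1) : ‖g‖ ≤ 1 := by
  rw [norm_le_one_iff, hg]
  exact Le_refl _

lemma case_empty {G : Type} [Group G] (π : G →* MU 𝒰 d)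
    (hS : Subgroup.closure ((∅ : Finset G) : Set G) = ⊤) :
    ∃ g : G → ∀ n, Matrix.unitaryGroup (Fin (d n)) ℂ,
    (∀ s ∈ (∅ : Finset G), mkU 𝒰 d (unB (g s)) = π s) ∧
    {y : MU 𝒰 d | ∀ h, y * π h = π h * y} =
      {y : MU 𝒰 d | ∃ a : BSeq d,
        (∀ n, ∀ s ∈ (∅ : Finset G), (a : ∀ n, Mt (d n)) n * (g s n : Mt (d n)) =
          (g s n : Mt (d n)) * (a : ∀ n, Mt (d n)) n) ∧ mkU 𝒰 d a = y} := by
  refine ⟨fun _ _ => 1, by simp, ?_⟩
  ext y
  constructor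
  · intro _
    obtain ⟨x, hx⟩ := mkU_surj y
    exact ⟨x, by simp, hx⟩
  · rintro ⟨a, ha, rfl⟩ h
    exact incl hS π (fun _ _ => 1) (by simp) a ha h

lemma case_single (hL : LftP) {G : Type} [Group G] (π : G →* MU 𝒰 d) (s : G) (hs2 : s * s = 1)
    (hS : Subgroup.closure (({s} : Finset G) : Set G) = ⊤) (hd : ∀ n, 0 < d n)
    (hun : ∀ g, IsUn (π g)) :
    ∃ g : G → ∀ n, Matrix.unitaryGroup (Fin (d n)) ℂ,
    (∀ t ∈ ({s} : Finset G), mkU 𝒰 d (unB (g t)) = π t) ∧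
    {y : MU 𝒰 d | ∀ h, y * π h = π h * y} =
      {y : MU 𝒰 d | ∃ a : BSeq d,
        (∀ n, ∀ t ∈ ({s} : Finset G), (a : ∀ n, Mt (d n)) n * (g t n : Mt (d n)) =
          (g t n : Mt (d n)) * (a : ∀ n, Mt (d n)) n) ∧ mkU 𝒰 d a = y} := by
  obtain ⟨U, hU⟩ := hL 𝒰 d (π s) hd (hun s)
  have hU1 : ∀ n, ((U n : Mt (d n)))ᴴ * (U n : Mt (d n)) = 1 := fun n =>
    Matrix.mem_unitaryGroup_iff'.1 (U n).2
  choose v hv1 hv2 hv3 using fun n => invol (U n : Mt (d n)) (hU1 n)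
  let V : ∀ n, Matrix.unitaryGroup (Fin (d n)) ℂ := fun n => ⟨v n, by
    rw [Matrix.mem_unitaryGroup_iff, star_eq_conjTranspose, hv1 n, hv2 n]⟩
  have hsq : Tendsto (fun n => hs ((U n : Mt (d n)) * (U n : Mt (d n)) - 1) / d n) 𝒰 (𝓝 0) := by
    have h1 : mkU 𝒰 d (unB U) * mkU 𝒰 d (unB U) = mkU 𝒰 d 1 := by
      rw [hU, ← map_mul, hs2, map_one, map_one]
    have h3 := null_mul h1
    exact h3
  have hVU : mkU 𝒰 d (unB V) = π s := by
    rw [← hU, mkU_eq_iff]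
    refine tend_of_le (c := 1) (fun n => div_nonneg (hs_nonneg _) (Nat.cast_nonneg _)) hsq
      (fun n => ?_)
    rw [one_mul]
    exact div_le_div_of_nonneg_right (hv3 n) (Nat.cast_nonneg _)
  have hg : ∀ t ∈ ({s} : Finset G), mkU 𝒰 d (unB ((fun (_ : G) => V) t)) = π t := by
    intro t ht
    rw [Finset.mem_singleton] at ht
    rw [ht]
    exact hVU
  refine ⟨fun _ => V, hg, ?_⟩
  ext y
  constructor
  · intro hy
    obtain ⟨x, hx⟩ := mkU_surj y
    obtain ⟨B, hB⟩ := x.2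
    have hc : mkU 𝒰 d x * mkU 𝒰 d (unB V) = mkU 𝒰 d (unB V) * mkU 𝒰 d x := by
      rw [hx, hVU]
      exact hy s
    have hnull := null_comm hc
    have hvn : ∀ n, ‖v n‖ ≤ 1 := fun n => norm_un (by rw [hv1 n, hv2 n])
    obtain ⟨a, ha⟩ := exists_seq
      (fun n => (1 / 2 : ℂ) • ((x : ∀ n, Mt (d n)) n + v n * (x : ∀ n, Mt (d n)) n * v n)) B
      (fun n => by
        rw [norm_smul]
        have h1 : ‖v n * (x : ∀ n, Mt (d n)) n * v n‖ ≤ ‖(x : ∀ n, Mt (d n)) n‖ := by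
          calc ‖v n * (x : ∀ n, Mt (d n)) n * v n‖ ≤ ‖v n‖ * ‖(x : ∀ n, Mt (d n)) n‖ * ‖v n‖ :=
                (norm_mul_le _ _).trans (mul_le_mul_of_nonneg_right (norm_mul_le _ _) (norm_nonneg _))
            _ ≤ 1 * ‖(x : ∀ n, Mt (d n)) n‖ * 1 := by
                have := hvn n
                gcongr
            _ = _ := by ring
        have h2 := norm_add_le ((x : ∀ n, Mt (d n)) n) (v n * (x : ∀ n, Mt (d n)) n * v n)
        have h3 : ‖(1 / 2 : ℂ)‖ = 1 / 2 := by norm_num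
        rw [h3]
        have h4 := hB n
        linarith)
    refine ⟨a, ?_, ?_⟩
    · intro n t _
      rw [ha n]
      show (1 / 2 : ℂ) • ((x : ∀ n, Mt (d n)) n + v n * (x : ∀ n, Mt (d n)) n * v n) * v n =
        v n * ((1 / 2 : ℂ) • ((x : ∀ n, Mt (d n)) n + v n * (x : ∀ n, Mt (d n)) n * v n))
      rw [smul_mul_assoc, mul_smul_comm, add_mul, mul_add]
      have e1 : v n * (x : ∀ n, Mt (d n)) n * v n * v n = v n * (x : ∀ n, Mt (d n)) n := by
        rw [mul_assoc, hv2 n, mul_one]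
      have e2 : v n * (v n * (x : ∀ n, Mt (d n)) n * v n) = (x : ∀ n, Mt (d n)) n * v n := by
        rw [← mul_assoc, ← mul_assoc, hv2 n, one_mul]
      rw [e1, e2, add_comm]
    · rw [← hx, mkU_eq_iff]
      refine tend_of_le (c := 1) (fun n => div_nonneg (hs_nonneg _) (Nat.cast_nonneg _)) hnull
        (fun n => ?_)
      refine (div_le_div_of_nonneg_right ?_ (Nat.cast_nonneg _)).trans (one_mul _).ge
      rw [ha n]
      show hs ((1 / 2 : ℂ) • ((x : ∀ n, Mt (d n)) n + v n * (x : ∀ n, Mt (d n)) n * v n) -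
        (x : ∀ n, Mt (d n)) n) ≤ hs ((x : ∀ n, Mt (d n)) n * v n - v n * (x : ∀ n, Mt (d n)) n)
      have e1 : (1 / 2 : ℂ) • ((x : ∀ n, Mt (d n)) n + v n * (x : ∀ n, Mt (d n)) n * v n) -
          (x : ∀ n, Mt (d n)) n =
          (-(1 / 2) : ℂ) • (((x : ∀ n, Mt (d n)) n * v n - v n * (x : ∀ n, Mt (d n)) n) * v n) := by
        rw [sub_mul, mul_assoc ((x : ∀ n, Mt (d n)) n), hv2 n, mul_one]
        module
      have hvu : (v n)ᴴ * v n = 1 := by rw [hv1 n, hv2 n]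
      rw [e1, hs_smul, hs_mul_unit hvu]
      have h3 : ‖(-(1 / 2) : ℂ)‖ ^ 2 = 1 / 4 := by norm_num
      rw [h3]
      have := hs_nonneg ((x : ∀ n, Mt (d n)) n * v n - v n * (x : ∀ n, Mt (d n)) n)
      linarith
  · rintro ⟨a, ha, rfl⟩ h
    exact incl hS π (fun _ => V) hg a ha h

theorem main (hM : MidP) (hL : LftP) (hG : Ge2P) : Re2P := by
  intro G _ _ S 𝒰 d π hT hinv hS hcof hd hun
  classical
  rcases Nat.lt_or_ge S.card 2 with hk | hk
  · rcases Nat.lt_or_ge S.card 1 with hk1 | hk1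
    · have : S = ∅ := Finset.card_eq_zero.1 (by omega)
      subst this
      exact case_empty π hS
    · obtain ⟨s, rfl⟩ := Finset.card_eq_one.1 (by omega : S.card = 1)
      have h1 := hinv s (Finset.mem_singleton_self s)
      rw [Finset.mem_singleton] at h1
      have hs2 : s * s = 1 := by
        conv_lhs => rw [← h1]
        rw [h1]
        nth_rewrite 1 [← h1]
        exact inv_mul_cancel s
      exact case_single hL π s hs2 hS hd hun
  -- at least two generators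
  obtain ⟨k, hkS⟩ : ∃ k, k = S.card := ⟨_, rfl⟩
  rw [← hkS] at hk
  let e : Fin k ≃ S := (finCongr hkS).trans S.equivFin.symm
  let γ : FreeGroup (Fin k) →* G := FreeGroup.lift (fun i => (e i : G))
  have hγ : ∀ i, γ (FreeGroup.of i) = e i := fun i => FreeGroup.lift_apply_of
  have hsurj : Function.Surjective γ := by
    rw [← MonoidHom.range_eq_top, FreeGroup.range_lift_eq_closure, ← hS]
    congr 1
    ext x
    constructor
    · rintro ⟨i, rfl⟩
      exact (e i).2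
    · intro hx
      exact ⟨e.symm ⟨x, hx⟩, by simp⟩
  choose U hU using fun i : Fin k => hL 𝒰 d (π (e i)) hd (hun _)
  obtain ⟨K0, ε, O, b, hK0, hε, hev⟩ := hM G k γ 𝒰 d π U hT hsurj hcof hd
    (fun s => by rw [hγ]; exact hU s)
  choose ε' hε' hGe using fun m : ℕ => hG k (1 / ((m : ℝ) + 1)) hk (by positivity)
  let T : ℕ → Set ℝ := fun n => {τ | 0 ≤ τ ∧ ∃ V : Fin k → Matrix.unitaryGroup (Fin (d n)) ℂ,
    (∀ s, hs ((V s : Mt (d n)) - (U s n : Mt (d n))) ≤ τ * d n) ∧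
    ∀ x : Mt (d n), (∀ s, x * (V s : Mt (d n)) = (V s : Mt (d n)) * x) ↔
      ∃ a ∈ (O n).alg, ∃ z : ℂ, x = a + z • (1 - (O n).Θ * (O n).Θᴴ)}
  have hT1 : ∀ m : ℕ, ∀ᶠ n in (𝒰 : Filter ℕ), 1 / ((m : ℝ) + 1) ∈ T n := by
    intro m
    have h1 : ∀ᶠ n in (𝒰 : Filter ℕ), ε n < ε' m := hε.eventually (gt_mem_nhds (hε' m))
    filter_upwards [hev, h1] with n hn hn1
    obtain ⟨p1, p2, p3, p4, p5⟩ := hn
    have hd0 : (0:ℝ) ≤ d n := Nat.cast_nonneg _
    have hle : ε n * d n ≤ ε' m * d n := mul_le_mul_of_nonneg_right hn1.le hd0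
    obtain ⟨V, hV1, hV2⟩ := hGe m (d n) (fun s => U s n) (O n) (b n) (hd n) p1 (p2.trans hle)
      (p5.trans hle)
    exact ⟨by positivity, V, hV1, hV2⟩
  have hV : ∀ n, ∃ V : Fin k → Matrix.unitaryGroup (Fin (d n)) ℂ, (T n).Nonempty →
      (∀ s, hs ((V s : Mt (d n)) - (U s n : Mt (d n))) ≤ (sInf (T n) + 1 / ((n : ℝ) + 1)) * d n) ∧
      ∀ x : Mt (d n), (∀ s, x * (V s : Mt (d n)) = (V s : Mt (d n)) * x) ↔
        ∃ a ∈ (O n).alg, ∃ z : ℂ, x = a + z • (1 - (O n).Θ * (O n).Θᴴ) := by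
    intro n
    by_cases hne : (T n).Nonempty
    · have hpos : (0:ℝ) < 1 / ((n : ℝ) + 1) := by positivity
      obtain ⟨τ, ⟨_, V, hV1, hV2⟩, hτ⟩ := exists_lt_of_csInf_lt hne (lt_add_of_pos_right _ hpos)
      refine ⟨V, fun _ => ⟨fun s => (hV1 s).trans ?_, hV2⟩⟩
      exact mul_le_mul_of_nonneg_right hτ.le (Nat.cast_nonneg _)
    · exact ⟨fun s => U s n, fun h => absurd h hne⟩
  choose V hV using hV
  have hne : ∀ᶠ n in (𝒰 : Filter ℕ), (T n).Nonempty := (hT1 0).mono fun n hn => ⟨_, hn⟩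
  have hδ : Tendsto (fun n : ℕ => sInf (T n) + 1 / ((n : ℝ) + 1)) 𝒰 (𝓝 0) := by
    have h1 : Tendsto (fun n : ℕ => sInf (T n)) 𝒰 (𝓝 0) := by
      rw [tendsto_order]
      constructor
      · intro c hc
        exact Filter.Eventually.of_forall fun n => hc.trans_le (Real.sInf_nonneg fun x hx => hx.1)
      · intro c hc
        obtain ⟨m, hm⟩ := exists_nat_one_div_lt hc
        filter_upwards [hT1 m] with n hn
        exact (csInf_le ⟨0, fun x hx => hx.1⟩ hn).trans_lt hm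
    have h2 : Tendsto (fun n : ℕ => 1 / ((n : ℝ) + 1)) 𝒰 (𝓝 0) :=
      tendsto_one_div_add_atTop_nhds_zero_nat.mono_left (by rw [← Nat.cofinite_eq_atTop]; exact hcof)
    simpa using h1.add h2
  have hVU : ∀ s, Tendsto (fun n => hs ((V n s : Mt (d n)) - (U s n : Mt (d n))) / d n) 𝒰 (𝓝 0) := by
    intro s
    refine squeeze_zero' (Filter.Eventually.of_forall fun n =>
      div_nonneg (hs_nonneg _) (Nat.cast_nonneg _)) ?_ hδ
    filter_upwards [hne] with n hn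
    have hd0 : (0:ℝ) < d n := by exact_mod_cast hd n
    rw [div_le_iff₀ hd0]
    exact (hV n hn).1 s
  let g : G → ∀ n, Matrix.unitaryGroup (Fin (d n)) ℂ := fun h n =>
    if hh : h ∈ S then V n (e.symm ⟨h, hh⟩) else 1
  have hgV : ∀ (h : G) (hh : h ∈ S) (n : ℕ), g h n = V n (e.symm ⟨h, hh⟩) := fun h hh n => dif_pos hh
  have hg : ∀ s ∈ S, mkU 𝒰 d (unB (g s)) = π s := by
    intro s hs'
    have h1 := hU (e.symm ⟨s, hs'⟩)
    have h2 : ((e (e.symm ⟨s, hs'⟩) : S) : G) = s := by simp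
    rw [h2] at h1
    rw [← h1, mkU_eq_iff]
    have h3 := hVU (e.symm ⟨s, hs'⟩)
    refine h3.congr fun n => ?_
    show _ = hs ((g s n : Mt (d n)) - (U (e.symm ⟨s, hs'⟩) n : Mt (d n))) / d n
    rw [hgV s hs' n]
  refine ⟨g, hg, ?_⟩
  ext y
  constructor
  swap
  · rintro ⟨a, ha, rfl⟩ h
    exact incl hS π g hg a ha h
  intro hy
  obtain ⟨x, hx⟩ := mkU_surj y
  obtain ⟨B, hB⟩ := x.2
  obtain ⟨c, hc0, hc⟩ : ∃ c : ℝ, 0 < c ∧ ∀ n, ‖(x : ∀ n, Mt (d n)) n‖ ≤ c :=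
    ⟨max B 1, lt_max_of_lt_right one_pos, fun n => (hB n).trans (le_max_left _ _)⟩
  let x' : ∀ n, Mt (d n) := fun n => ((c⁻¹ : ℝ) : ℂ) • (x : ∀ n, Mt (d n)) n
  have hx'1 : ∀ n, Le ((x' n)ᴴ * x' n) 1 := by
    intro n
    rw [← norm_le_one_iff]
    show ‖((c⁻¹ : ℝ) : ℂ) • (x : ∀ n, Mt (d n)) n‖ ≤ 1
    rw [norm_smul, Complex.norm_real, Real.norm_eq_abs, abs_of_pos (inv_pos.2 hc0),
      inv_mul_le_iff₀ hc0, mul_one]
    exact hc n
  have hen : Tendsto (fun n => en (fun s => (U s n : Mt (d n))) (x' n) / d n) 𝒰 (𝓝 0) := by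
    have h1 : ∀ s, Tendsto (fun n => hs ((U s n : Mt (d n)) * (x : ∀ n, Mt (d n)) n -
        (x : ∀ n, Mt (d n)) n * (U s n : Mt (d n))) / d n) 𝒰 (𝓝 0) := by
      intro s
      have h2 : mkU 𝒰 d (unB (U s)) * mkU 𝒰 d x = mkU 𝒰 d x * mkU 𝒰 d (unB (U s)) := by
        rw [hx, hU s]
        exact (hy _).symm
      have h3 := null_comm h2
      exact h3
    have h3 : Tendsto (fun n => ∑ s, hs ((U s n : Mt (d n)) * (x : ∀ n, Mt (d n)) n -
        (x : ∀ n, Mt (d n)) n * (U s n : Mt (d n))) / d n) 𝒰 (𝓝 0) := by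
      have := tendsto_finsetSum Finset.univ (fun s _ => h1 s)
      simpa using this
    refine tend_of_le (c := (c⁻¹) ^ 2) (fun n => div_nonneg (en_nonneg _ _) (Nat.cast_nonneg _)) h3
      (fun n => le_of_eq ?_)
    show en (fun s => (U s n : Mt (d n))) (((c⁻¹ : ℝ) : ℂ) • (x : ∀ n, Mt (d n)) n) / d n = _
    rw [en_smul_real, mul_div_assoc]
    congr 1
    unfold en
    rw [Finset.sum_div]
  have ha : ∀ n, ∃ a : Mt (d n), Le (aᴴ * a) 1 ∧
      (∀ s, a * (V n s : Mt (d n)) = (V n s : Mt (d n)) * a) ∧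
      ((∀ x : Mt (d n), Le (xᴴ * x) 1 → ∃ a ∈ (O n).alg, Le (aᴴ * a) 1 ∧
        hs (x - a) ≤ K0 * en (fun s => (U s n : Mt (d n))) x + ε n * d n) → (T n).Nonempty →
        hs (x' n - a) ≤ K0 * en (fun s => (U s n : Mt (d n))) (x' n) + ε n * d n) := by
    intro n
    by_cases hgood : (∀ x : Mt (d n), Le (xᴴ * x) 1 → ∃ a ∈ (O n).alg, Le (aᴴ * a) 1 ∧
        hs (x - a) ≤ K0 * en (fun s => (U s n : Mt (d n))) x + ε n * d n) ∧ (T n).Nonempty
    · obtain ⟨a, haa, ha1, ha2⟩ := hgood.1 (x' n) (hx'1 n)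
      refine ⟨a, ha1, ((hV n hgood.2).2 a).2 ⟨a, haa, 0, ?_⟩, fun _ _ => ha2⟩
      rw [zero_smul, add_zero]
    · refine ⟨0, ?_, fun s => by rw [zero_mul, mul_zero], fun h1 h2 => absurd ⟨h1, h2⟩ hgood⟩
      rw [mul_zero]
      unfold Le
      rw [sub_zero]
      exact Matrix.PosSemidef.one
  choose a ha1 ha2 ha3 using ha
  obtain ⟨A, hA⟩ := exists_seq (fun n => (c : ℂ) • a n) c (fun n => by
    rw [norm_smul, Complex.norm_real, Real.norm_eq_abs, abs_of_pos hc0]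
    have := (norm_le_one_iff (a n)).2 (ha1 n)
    nlinarith)
  refine ⟨A, ?_, ?_⟩
  · intro n s hs'
    rw [hA n, hgV s hs' n, smul_mul_assoc, mul_smul_comm, ha2 n]
  · rw [← hx, mkU_eq_iff]
    have hlim : Tendsto (fun n => c ^ 2 * (K0 * (en (fun s => (U s n : Mt (d n))) (x' n) / d n) + ε n))
        𝒰 (𝓝 0) := by
      have := ((hen.const_mul K0).add hε).const_mul (c ^ 2)
      simpa using this
    refine squeeze_zero' (Filter.Eventually.of_forall fun n =>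
      div_nonneg (hs_nonneg _) (Nat.cast_nonneg _)) ?_ hlim
    filter_upwards [hev, hne] with n hn hn1
    obtain ⟨p1, p2, p3, p4, p5⟩ := hn
    have h1 := ha3 n p4 hn1
    have hd0 : (0:ℝ) < d n := by exact_mod_cast hd n
    rw [hA n]
    have e1 : (c : ℂ) • a n - (x : ∀ n, Mt (d n)) n = ((-c : ℝ) : ℂ) • (x' n - a n) := by
      show (c : ℂ) • a n - (x : ∀ n, Mt (d n)) n =
        ((-c : ℝ) : ℂ) • (((c⁻¹ : ℝ) : ℂ) • (x : ∀ n, Mt (d n)) n - a n)
      rw [smul_sub, smul_smul]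
      have e2 : ((-c : ℝ) : ℂ) * ((c⁻¹ : ℝ) : ℂ) = -1 := by
        rw [← Complex.ofReal_mul]
        have : -c * c⁻¹ = -1 := by
          rw [neg_mul, mul_inv_cancel₀ hc0.ne']
        rw [this]
        norm_num
      rw [e2]
      push_cast
      module
    rw [e1, hs_smul_real, div_le_iff₀ hd0]
    have e3 : c ^ 2 * (K0 * (en (fun s => (U s n : Mt (d n))) (x' n) / d n) + ε n) * d n =
        c ^ 2 * (K0 * en (fun s => (U s n : Mt (d n))) (x' n) + ε n * d n) := by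
      field_simp
    rw [e3, neg_sq]
    exact mul_le_mul_of_nonneg_left h1 (sq_nonneg c)

end Pool.Agent.W138.RC
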