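import Pool.Agent.W138.RC.MU

/-!
# Project RC: self-adjoint unitaries near unitaries with square near 1 (helper138)
-/

set_option autoImplicit false

namespace Pool.Agent.W138.RC

open Matrix Filter Topology
open scoped ComplexOrder
open scoped Matrix.Norms.L2Operator
open Pool.Agent.W661.RC Pool.Agent.W683.RC

lemma hs_diag {d : ℕ} (v : Fin d → ℂ) : hs (diagonal v : Mt d) = ∑ i, ‖v i‖ ^ 2 := by
  unfold hs
  apply Finset.sum_congr rfl
  intro i _
  rw [Finset.sum_eq_single i]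
  · rw [diagonal_apply_eq]
  · intro j _ hj
    rw [diagonal_apply_ne _ hj.symm]
    simp
  · intro h
    exact absurd (Finset.mem_univ i) h

/-- the sign of a hermitian matrix -/
lemma sgn {d : ℕ} (h : Mt d) (hh : h.IsHermitian) :
    ∃ g : Mt d, gᴴ = g ∧ g * g = 1 ∧ hs (g - h) ≤ hs (h * h - 1) := by
  obtain ⟨W, hW, hWW, D, hD⟩ : ∃ W : Mt d, Wᴴ * W = 1 ∧ W * Wᴴ = 1 ∧
      ∃ D : Fin d → ℝ, h = W * diagonal (fun i => (D i : ℂ)) * Wᴴ := by
    refine ⟨(hh.eigenvectorUnitary : Mt d), Matrix.mem_unitaryGroup_iff'.1 hh.eigenvectorUnitary.2,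
      Matrix.mem_unitaryGroup_iff.1 hh.eigenvectorUnitary.2, hh.eigenvalues, ?_⟩
    exact hh.spectral_theorem
  have key : ∀ v w : Fin d → ℂ, (W * diagonal v * Wᴴ) * (W * diagonal w * Wᴴ) =
      W * diagonal (fun i => v i * w i) * Wᴴ := by
    intro v w
    calc (W * diagonal v * Wᴴ) * (W * diagonal w * Wᴴ) =
        W * diagonal v * (Wᴴ * W) * diagonal w * Wᴴ := by simp only [Matrix.mul_assoc]
      _ = W * (diagonal v * diagonal w) * Wᴴ := by
          rw [hW, Matrix.mul_one]; simp only [Matrix.mul_assoc]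
      _ = _ := by rw [diagonal_mul_diagonal]
  have hone : W * diagonal (fun _ => (1:ℂ)) * Wᴴ = 1 := by
    rw [show (diagonal (fun _ => (1:ℂ)) : Mt d) = 1 from rfl, Matrix.mul_one, hWW]
  have hsub : ∀ v w : Fin d → ℂ, W * diagonal v * Wᴴ - W * diagonal w * Wᴴ =
      W * diagonal (fun i => v i - w i) * Wᴴ := by
    intro v w
    rw [← Matrix.sub_mul, ← Matrix.mul_sub, diagonal_sub]
  have hhs : ∀ v : Fin d → ℂ, hs (W * diagonal v * Wᴴ) = ∑ i, ‖v i‖ ^ 2 := by
    intro v
    rw [hs_mul_unit (unit_conj hW), hs_unit_mul hW, hs_diag]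
  let sg : Fin d → ℂ := fun i => if 0 ≤ D i then 1 else -1
  refine ⟨W * diagonal sg * Wᴴ, ?_, ?_, ?_⟩
  · rw [conjTranspose_mul, conjTranspose_mul, conjTranspose_conjTranspose, diagonal_conjTranspose,
      Matrix.mul_assoc]
    congr 3
    funext i
    show star (sg i) = sg i
    simp only [sg]
    split_ifs <;> simp
  · rw [key, ← hone]
    congr 3
    funext i
    simp only [sg]
    split_ifs <;> simp
  · rw [hD, hsub, key]
    conv_rhs => rw [← hone, hsub]
    rw [hhs, hhs]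
    apply Finset.sum_le_sum
    intro i _
    apply pow_le_pow_left₀ (norm_nonneg _)
    have e2 : ((D i : ℂ) * (D i : ℂ) - 1) = ((D i * D i - 1 : ℝ) : ℂ) := by push_cast; ring
    rw [e2, Complex.norm_real, Real.norm_eq_abs]
    simp only [sg]
    split_ifs with h0
    · have e1 : (1 : ℂ) - (D i : ℂ) = ((1 - D i : ℝ) : ℂ) := by push_cast; ring
      rw [e1, Complex.norm_real, Real.norm_eq_abs]
      have e3 : D i * D i - 1 = -((1 - D i) * (1 + D i)) := by ring
      rw [e3, abs_neg, abs_mul]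
      have : 1 ≤ |1 + D i| := by rw [abs_of_nonneg (by linarith)]; linarith
      nlinarith [abs_nonneg (1 - D i)]
    · push Not at h0
      have e1 : (-1 : ℂ) - (D i : ℂ) = ((-(1 + D i) : ℝ) : ℂ) := by push_cast; ring
      rw [e1, Complex.norm_real, Real.norm_eq_abs, abs_neg]
      have e3 : D i * D i - 1 = -((1 + D i) * (1 - D i)) := by ring
      rw [e3, abs_neg, abs_mul]
      have : 1 ≤ |1 - D i| := by rw [abs_of_nonneg (by linarith)]; linarith
      nlinarith [abs_nonneg (1 + D i)]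

/-- a self-adjoint unitary near a unitary whose square is near 1 -/
lemma invol {d : ℕ} (u : Mt d) (hu : uᴴ * u = 1) :
    ∃ g : Mt d, gᴴ = g ∧ g * g = 1 ∧ hs (g - u) ≤ hs (u * u - 1) := by
  have hu' : u * uᴴ = 1 := unit_symm hu
  set h : Mt d := (1 / 2 : ℂ) • (u + uᴴ) with hh
  have hherm : h.IsHermitian := by
    unfold IsHermitian
    rw [hh, conjTranspose_smul, conjTranspose_add, conjTranspose_conjTranspose, add_comm]
    congr 1
    simp
  obtain ⟨g, hg1, hg2, hg3⟩ := sgn h hherm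
  refine ⟨g, hg1, hg2, ?_⟩
  have e1 : h * h - 1 = (1 / 4 : ℂ) • ((u * u - 1) + (u * u - 1)ᴴ) := by
    rw [hh, conjTranspose_sub, conjTranspose_mul, conjTranspose_one, smul_mul_smul_comm,
      add_mul, mul_add, mul_add, hu, hu']
    module
  have e2 : h - u = (1 / 2 : ℂ) • (uᴴ - u) := by
    rw [hh]
    module
  have e3 : hs (h - u) ≤ hs (u * u - 1) / 4 := by
    rw [e2, hs_smul]
    have e4 : uᴴ - u = -((u * u - 1) * uᴴ) := by
      rw [sub_mul, Matrix.mul_assoc, hu', Matrix.mul_one, Matrix.one_mul]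
      abel
    rw [e4, hs_neg, hs_mul_unit (unit_conj hu)]
    have h4 : ‖(1 / 2 : ℂ)‖ ^ 2 = 1 / 4 := by norm_num
    rw [h4]
    linarith
  have e5 : hs (h * h - 1) ≤ hs (u * u - 1) / 4 := by
    rw [e1, hs_smul]
    have h1 := hs_add_le (u * u - 1) (u * u - 1)ᴴ
    rw [hs_conjTranspose] at h1
    have h4 : ‖(1 / 4 : ℂ)‖ ^ 2 = 1 / 16 := by norm_num
    rw [h4]
    linarith
  have e6 : g - u = (g - h) + (h - u) := by abel
  rw [e6]
  have h2 := hs_add_le (g - h) (h - u)
  linarith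

end Pool.Agent.W138.RC
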